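import Mathlib

/-!
# Finitely generated commutative linear semigroups and rays: definitions
-/

set_option autoImplicit false

open Metric Set Topology

namespace Pool.Agent.Q186.Rays

section

variable (K V : Type) [RCLike K] [NormedAddCommGroup V] [NormedSpace K V]

/-- `S` is generated, as a semigroup, by finitely many pairwise commuting invertible linear maps. -/
def IsFGComm (S : Subsemigroup (V ≃ₗ[K] V)) : Prop :=
  ∃ G : Set (V ≃ₗ[K] V), G.Finite ∧ (∀ g ∈ G, ∀ h ∈ G, g * h = h * g) ∧
    S = Subsemigroup.closure G

variable {K V}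

/-- The orbit of `v` under `S`. -/
def orbit (S : Subsemigroup (V ≃ₗ[K] V)) (v : V) : Set V := {x | ∃ g ∈ S, g v = x}

variable (K)

/-- The ray through `w`. -/
def ray (w : V) : Set V := {x | ∃ t : ℝ, 0 < t ∧ x = (t : K) • w}

variable {K}

/-- `A` is coarsely dense along `Y`. -/
def CoarselyDenseAlong (A Y : Set V) : Prop := ∃ D : ℝ, 0 < D ∧ Y ⊆ ⋃ a ∈ A, ball a D

/-- The closure of `A` has nonempty interior. -/
def SomewhereDense (A : Set V) : Prop := (interior (closure A)).Nonempty

variable (K)

/-- The rays through the vectors `w ∈ W` force somewhere dense orbits: every finitely generated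
commutative linear semigroup which has an orbit coarsely dense along the union of these rays has a
somewhere dense orbit. -/
def Forces (W : Finset V) : Prop :=
  (∀ w ∈ W, w ≠ 0) ∧ ∀ S : Subsemigroup (V ≃ₗ[K] V), IsFGComm K V S →
    (∃ v, CoarselyDenseAlong (orbit S v) (⋃ w ∈ W, ray K w)) → ∃ v, SomewhereDense (orbit S v)

end

end Pool.Agent.Q186.Rays
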