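import Mathlib
import Pool.Agent.Q186.Rays.Defs

/-!
# No finite family of rays forces somewhere dense orbits in dimension at least two
-/

set_option autoImplicit false

open Metric Set Topology

namespace Pool.Agent.Q186.Rays

variable {K V : Type} [RCLike K] [NormedAddCommGroup V] [NormedSpace K V]

open Classical in
/-- the unipotent map `x ↦ x + y(x) l` for `l` in the kernel of `y` -/
noncomputable def uniT (y : V →ₗ[K] K) (l : V) : V ≃ₗ[K] V :=
  if hl : y l = 0 then
    LinearEquiv.ofLinearMap (LinearMap.id + y.smulRight l) (LinearMap.id - y.smulRight l)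
      (by ext x; simp [hl]) (by ext x; simp [hl])
  else 1

theorem uniT_apply {y : V →ₗ[K] K} {l : V} (hl : y l = 0) (x : V) :
    uniT y l x = x + y x • l := by
  unfold uniT
  rw [dif_pos hl]
  rfl

open Classical in
/-- multiplication by a nonzero scalar -/
noncomputable def scT (s : K) : V ≃ₗ[K] V :=
  if hs : s ≠ 0 then LinearEquiv.smulOfNeZero K V s hs else 1

theorem scT_apply {s : K} (hs : s ≠ 0) (x : V) : scT s x = s • x := by
  unfold scT
  rw [dif_pos hs]
  rfl

variable [FiniteDimensional K V]

/-- a finite union of proper subspaces has empty interior -/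
theorem interior_union {ι : Type} (s : Finset ι) (L : ι → Submodule K V) (hL : ∀ i, L i ≠ ⊤) :
    interior (⋃ i ∈ s, (L i : Set V)) = ∅ := by
  classical
  induction s using Finset.induction_on with
  | empty => simp
  | insert i s his ih =>
    rw [Finset.set_biUnion_insert]
    rw [interior_union_isClosed_of_interior_empty (L i).closed_of_finiteDimensional ih]
    rw [← Set.not_nonempty_iff_eq_empty]
    intro h
    exact hL i (Submodule.eq_top_of_nonempty_interior' _ h)

omit [FiniteDimensional K V] in
theorem span_ne_top (h2 : 2 ≤ Module.finrank K V) (v : V) : Submodule.span K {v} ≠ ⊤ := by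
  intro h
  have h1 : Module.finrank K (Submodule.span K {v}) ≤ 1 := by
    have := finrank_span_le_card (R := K) ({v} : Set V)
    simpa using this
  rw [h, finrank_top] at h1
  omega

theorem neg (h2 : 2 ≤ Module.finrank K V)
    (hG : ∃ G0 : Finset K, (∀ g ∈ G0, g ≠ 0) ∧ Dense (Submonoid.closure (G0 : Set K) : Set K))
    (W : Finset V) : ¬ Forces K W := by
  classical
  rintro ⟨hW0, hF⟩
  obtain ⟨G0, hG0, hdense⟩ := hG
  have hnt : Nontrivial V := Module.nontrivial_of_finrank_pos (R := K) (by omega)
  obtain ⟨v1, hv1⟩ := exists_ne (0 : V)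
  -- a functional which does not vanish on the rays
  obtain ⟨y, hy⟩ := Module.exists_dual_forall_apply_ne_zero (K := K)
    (fun w : Option W => (match w with
      | none => v1
      | some w => (w : V))) (by
        intro w
        cases w with
        | none => exact hv1
        | some w => exact hW0 w w.2)
  have hyW : ∀ w : W, y w ≠ 0 := fun w => hy (some w)
  have hy1 : y v1 ≠ 0 := hy none
  set e : V := (y v1)⁻¹ • v1 with he
  have hye : y e = 1 := by rw [he, map_smul, smul_eq_mul, inv_mul_cancel₀ hy1]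
  -- a vector in the kernel
  obtain ⟨u, hyu, hu0⟩ : ∃ u, y u = 0 ∧ u ≠ 0 := by
    by_contra hcon
    push Not at hcon
    have hinj : Function.Injective y := by
      rw [← LinearMap.ker_eq_bot, LinearMap.ker_eq_bot']
      exact hcon
    have := LinearMap.finrank_le_finrank_of_injective hinj
    rw [Module.finrank_self] at this
    omega
  obtain ⟨f, hf⟩ := Module.exists_dual_forall_apply_ne_zero (K := K) (fun _ : Unit => u)
    (fun _ => hu0)
  have hfu : f u ≠ 0 := hf ()
  set φ : V → ℝ := fun x => RCLike.re ((f u)⁻¹ * f x) with hφ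
  have hφadd : ∀ a b, φ (a + b) = φ a + φ b := by
    intro a b
    simp only [hφ, map_add, mul_add]
  have hφnat : ∀ (n : ℕ) (a : V), φ (n • a) = n * φ a := by
    intro n a
    induction n with
    | zero => simp [hφ]
    | succ n ih => rw [succ_nsmul, hφadd, ih]; push_cast; ring
  have hφsum : ∀ (g : W → V), φ (∑ w, g w) = ∑ w, φ (g w) := by
    intro g
    simp only [hφ, map_sum, Finset.mul_sum]
  have hφu : ∀ r : ℝ, φ ((r : K) • u) = r := by
    intro r
    simp only [hφ]
    rw [map_smul, smul_eq_mul, mul_left_comm, inv_mul_cancel₀ hfu, mul_one, RCLike.ofReal_re]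
  have hφcont : Continuous φ := by
    have hfc : Continuous f := f.continuous_of_finiteDimensional
    exact RCLike.continuous_re.comp (continuous_const.mul hfc)
  have hyc : Continuous y := y.continuous_of_finiteDimensional
  set mu : V → V := fun w => (y w)⁻¹ • w - e with hmu
  have hymu : ∀ w : W, y (mu w) = 0 := by
    intro w
    simp only [hmu]
    rw [map_sub, map_smul, smul_eq_mul, inv_mul_cancel₀ (hyW w), hye, sub_self]
  set c : ℝ := 1 + ∑ w : W, |φ (mu w)| with hc
  set mu0 : V := ((-c : ℝ) : K) • u with hmu0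
  have hymu0 : y mu0 = 0 := by rw [hmu0, map_smul, hyu, smul_zero]
  set la : W → V := fun w => mu w - mu0 with hla
  have hyla : ∀ w, y (la w) = 0 := by
    intro w
    simp only [hla]
    rw [map_sub, hymu, hymu0, sub_self]
  have hφla : ∀ w, 1 ≤ φ (la w) := by
    intro w
    have e1 : mu w = la w + mu0 := by simp only [hla]; abel
    have e2 : φ (mu w) = φ (la w) + φ mu0 := by rw [e1, hφadd]
    rw [hmu0, hφu] at e2
    have e3 : |φ (mu w)| ≤ ∑ w : W, |φ (mu w)| :=
      Finset.single_le_sum (f := fun w : W => |φ (mu w)|) (fun _ _ => abs_nonneg _)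
        (Finset.mem_univ w)
    have e4 := neg_abs_le (φ (mu w))
    linarith
  -- the semigroup
  set G : Set (V ≃ₗ[K] V) := (scT '' (G0 : Set K)) ∪ Set.range (fun w : W => uniT y (la w)) with hGdef
  have hGfin : G.Finite := (G0.finite_toSet.image _).union (Set.finite_range _)
  -- the form of the generators
  have hGform : ∀ g ∈ G, (∃ s : K, s ≠ 0 ∧ ∀ x, g x = s • x) ∨ ∃ w : W, ∀ x, g x = x + y x • la w := by
    rintro g (⟨s, hs, rfl⟩ | ⟨w, rfl⟩)
    · exact Or.inl ⟨s, hG0 s hs, fun x => scT_apply (hG0 s hs) x⟩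
    · exact Or.inr ⟨w, fun x => uniT_apply (hyla w) x⟩
  have hGcomm : ∀ g ∈ G, ∀ h ∈ G, g * h = h * g := by
    intro g hg h hh
    ext x
    change g (h x) = h (g x)
    rcases hGform g hg with ⟨s, -, hs⟩ | ⟨w, hw⟩ <;> rcases hGform h hh with ⟨s', -, hs'⟩ | ⟨w', hw'⟩
    · rw [hs, hs', hs', hs, smul_comm]
    · rw [hs, hw', hw', hs, smul_add, map_smul, smul_assoc]
    · rw [hw, hs', hs', hw, smul_add, map_smul, smul_assoc]
    · rw [hw, hw', hw', hw, map_add, map_add, map_smul, map_smul, hyla, hyla]
      simp only [smul_zero, add_zero]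
      abel
  set S : Subsemigroup (V ≃ₗ[K] V) := Subsemigroup.closure G with hS
  -- the form of the elements
  have hSform : ∀ g ∈ S, ∃ s : K, s ≠ 0 ∧ ∃ n : W → ℕ, ∀ x, g x = s • (x + y x • ∑ w, n w • la w) := by
    intro g hg
    rw [hS] at hg
    induction hg using Subsemigroup.closure_induction with
    | mem g hg =>
      rcases hGform g hg with ⟨s, hs0, hs⟩ | ⟨w, hw⟩
      · exact ⟨s, hs0, 0, fun x => by rw [hs]; simp⟩
      · refine ⟨1, one_ne_zero, Pi.single w 1, fun x => ?_⟩
        rw [hw, one_smul]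
        congr 2
        rw [Finset.sum_eq_single w]
        · simp
        · intro w' _ hne
          simp [hne]
        · simp
    | mul g h _ _ ihg ihh =>
      obtain ⟨s, hs, n, hn⟩ := ihg
      obtain ⟨s', hs', n', hn'⟩ := ihh
      refine ⟨s * s', mul_ne_zero hs hs', n + n', fun x => ?_⟩
      have hy0 : ∀ n : W → ℕ, y (∑ w, n w • la w) = 0 := by
        intro n
        rw [map_sum]
        apply Finset.sum_eq_zero
        intro w _
        rw [map_nsmul, hyla, smul_zero]
      change g (h x) = _
      rw [hn, hn', map_smul, map_add, map_smul, hy0, smul_zero, add_zero, smul_eq_mul, mul_smul,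
        mul_smul s s']
      congr 1
      rw [← smul_add]
      congr 1
      simp only [Pi.add_apply, add_smul, Finset.sum_add_distrib, smul_add]
      abel
  -- scalar multiples of elements of `S`
  have hscal : ∀ s ∈ Submonoid.closure (G0 : Set K), ∀ h ∈ S, ∃ g ∈ S, ∀ x, g x = s • h x := by
    intro s hs
    induction hs using Submonoid.closure_induction with
    | mem s hs =>
      intro h hh
      refine ⟨scT s * h, S.mul_mem (Subsemigroup.subset_closure (Or.inl ⟨s, hs, rfl⟩)) hh, fun x => ?_⟩
      change scT s (h x) = _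
      rw [scT_apply (hG0 s hs)]
    | one => exact fun h hh => ⟨h, hh, fun x => by rw [one_smul]⟩
    | mul a b _ _ iha ihb =>
      intro h hh
      obtain ⟨g, hg, hg2⟩ := ihb h hh
      obtain ⟨g', hg', hg2'⟩ := iha g hg
      exact ⟨g', hg', fun x => by rw [hg2', hg2, smul_smul]⟩
  -- the coarsely dense orbit
  obtain ⟨v, hv⟩ := hF S ⟨G, hGfin, hGcomm, hS⟩ ⟨e + mu0, 1, one_pos, by
    intro x hx
    simp only [Set.mem_iUnion, exists_prop] at hx
    obtain ⟨w, hw, t, ht, rfl⟩ := hx
    set q : V := e + mu w with hq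
    have hqw : w = y w • q := by
      rw [hq, hmu]
      simp only
      rw [add_sub_cancel, smul_smul, mul_inv_cancel₀ (hyW ⟨w, hw⟩), one_smul]
    obtain ⟨s, hs, hs2⟩ := Metric.dense_iff.mp hdense ((t : K) * y w) (1 / (‖q‖ + 1)) (by positivity)
    have hu : uniT y (la ⟨w, hw⟩) ∈ S := Subsemigroup.subset_closure (Or.inr ⟨⟨w, hw⟩, rfl⟩)
    obtain ⟨g, hg, hg2⟩ := hscal s hs2 _ hu
    simp only [Set.mem_iUnion, exists_prop]
    refine ⟨g (e + mu0), ⟨g, hg, rfl⟩, ?_⟩
    have e1 : g (e + mu0) = s • q := by
      rw [hg2, uniT_apply (hyla _), map_add, hye, hymu0, add_zero, one_smul]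
      congr 1
      simp only [hla, hq]
      abel
    have e2 : (t : K) • w = ((t : K) * y w) • q := by
      conv_lhs => rw [hqw]
      rw [smul_smul]
    rw [mem_ball, e1, e2, dist_eq_norm, ← sub_smul, norm_smul]
    have e3 : ‖(t : K) * y w - s‖ < 1 / (‖q‖ + 1) := by
      rw [← dist_eq_norm, dist_comm]
      exact hs
    have hq0 : 0 < ‖q‖ + 1 := by positivity
    rw [lt_div_iff₀ hq0] at e3
    nlinarith [norm_nonneg ((t : K) * y w - s)]⟩
  -- no orbit is somewhere dense
  obtain ⟨p0, hp0⟩ := hv
  set Z := interior (closure (orbit S v)) with hZ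
  have hker : interior ((LinearMap.ker y : Submodule K V) : Set V) = ∅ := by
    rw [← Set.not_nonempty_iff_eq_empty]
    intro h
    have := Submodule.eq_top_of_nonempty_interior' _ h
    have h3 : e ∈ LinearMap.ker y := by rw [this]; trivial
    rw [LinearMap.mem_ker, hye] at h3
    exact one_ne_zero h3
  obtain ⟨p, hpZ, hyp⟩ : ∃ p ∈ Z, y p ≠ 0 := by
    by_contra hcon
    push Not at hcon
    have h1 : Z ⊆ interior ((LinearMap.ker y : Submodule K V) : Set V) := by
      rw [hZ]
      refine interior_maximal ?_ isOpen_interior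
      intro x hx
      exact hcon x hx
    rw [hker] at h1
    exact h1 hp0
  set B : ℝ := φ ((y p)⁻¹ • p) + 1 with hB
  set N : Set V := (Z ∩ {x | y x ≠ 0}) ∩ {x | y x ≠ 0 ∧ φ ((y x)⁻¹ • x) < B} with hN
  have hNo : IsOpen N := by
    have h1 : IsOpen {x | y x ≠ 0} := isOpen_ne_fun hyc continuous_const
    have h2 : IsOpen {x | y x ≠ 0 ∧ φ ((y x)⁻¹ • x) < B} := by
      have h3 : ContinuousOn (fun x => φ ((y x)⁻¹ • x)) {x | y x ≠ 0} := by
        apply hφcont.comp_continuousOn
        apply ContinuousOn.smul
        · exact hyc.continuousOn.inv₀ fun x hx => hx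
        · exact continuousOn_id
      exact h3.isOpen_inter_preimage h1 isOpen_Iio
    exact (isOpen_interior.inter h1).inter h2
  have hpN : p ∈ N := ⟨⟨hpZ, hyp⟩, hyp, by rw [hB]; exact lt_add_one _⟩
  have hNcl : N ⊆ closure (orbit S v ∩ N) := by
    intro x hx
    have h1 : x ∈ N ∩ closure (orbit S v) := ⟨hx, interior_subset hx.1.1⟩
    have h2 := hNo.inter_closure h1
    rwa [inter_comm] at h2
  -- finitely many lines
  set M : ℝ := B - φ ((y v)⁻¹ • v) with hM
  obtain ⟨m, hm⟩ := exists_nat_gt M
  have hfin : {n : W → ℕ | ∀ w, n w ∈ Set.Iio m}.Finite := Set.Finite.pi' fun _ => Set.finite_Iio m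
  have hsub : orbit S v ∩ N ⊆ ⋃ n ∈ hfin.toFinset,
      ((Submodule.span K {v + y v • ∑ w, n w • la w} : Submodule K V) : Set V) := by
    rintro x ⟨⟨g, hg, rfl⟩, hxN⟩
    obtain ⟨s, hs, n, hn⟩ := hSform g hg
    have hx := hn v
    have hygv : y (g v) = s * y v := by
      rw [hx, map_smul, map_add, map_smul, map_sum]
      simp only [map_nsmul, hyla, smul_zero, Finset.sum_const_zero, mul_zero, add_zero, smul_eq_mul]
    have hyv : y v ≠ 0 := by
      intro h0
      apply hxN.2.1
      rw [hygv, h0, mul_zero]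
    have h3 : (y (g v))⁻¹ • g v = (y v)⁻¹ • v + ∑ w, n w • la w := by
      rw [hygv, hx, smul_smul, mul_inv, mul_right_comm, inv_mul_cancel₀ hs, one_mul, smul_add,
        smul_smul, inv_mul_cancel₀ hyv, one_smul]
    have h4 : φ (∑ w, n w • la w) < M := by
      have h5 := hxN.2.2
      rw [h3, hφadd] at h5
      rw [hM]; linarith
    simp only [Set.mem_iUnion, exists_prop]
    refine ⟨n, ?_, ?_⟩
    · simp only [Set.Finite.mem_toFinset, Set.mem_ofPred_eq, Set.mem_Iio]
      intro w
      rw [hφsum] at h4
      have h5 : (n w : ℝ) ≤ ∑ w, φ (n w • la w) := by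
        have h6 : (n w : ℝ) ≤ φ (n w • la w) := by
          rw [hφnat]
          have := hφla w
          have h7 : (0 : ℝ) ≤ n w := Nat.cast_nonneg _
          nlinarith
        refine h6.trans (Finset.single_le_sum (f := fun w => φ (n w • la w)) ?_ (Finset.mem_univ w))
        intro w' _
        rw [hφnat]
        have := hφla w'
        have h7 : (0 : ℝ) ≤ n w' := Nat.cast_nonneg _
        nlinarith
      have h6 : (n w : ℝ) < m := lt_of_le_of_lt h5 (h4.trans hm)
      exact_mod_cast h6
    · rw [hx]
      exact Submodule.smul_mem _ _ (Submodule.mem_span_singleton_self _)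
  have hclosed : IsClosed (⋃ n ∈ hfin.toFinset,
      ((Submodule.span K {v + y v • ∑ w, n w • la w} : Submodule K V) : Set V)) :=
    isClosed_biUnion_finset fun n _ => Submodule.closed_of_finiteDimensional _
  have hN2 : N ⊆ interior (⋃ n ∈ hfin.toFinset,
      ((Submodule.span K {v + y v • ∑ w, n w • la w} : Submodule K V) : Set V)) := by
    refine interior_maximal (hNcl.trans ?_) hNo
    exact closure_minimal hsub hclosed
  rw [interior_union _ _ fun n => span_ne_top h2 _] at hN2
  exact hN2 hpN

end Pool.Agent.Q186.Rays
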