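import Mathlib
import Pool.Agent.Q186.Rays.Defs

/-!
# Two rays force somewhere dense orbits in dimension one
-/

set_option autoImplicit false

open Metric Set Topology Filter

namespace Pool.Agent.Q186.Rays

section Scalars

variable {K : Type} [RCLike K]

/-- a sequence in a bounded set of scalars has close terms with large indices -/
theorem close_terms (z : ℕ → K) (R : ℝ) (hz : ∀ j, ‖z j‖ ≤ R) (n : ℕ → ℕ)
    (hn : Tendsto n atTop atTop) (ε : ℝ) (hε : 0 < ε) :
    ∃ i j : ℕ, i + 2 ≤ j ∧ n i + 2 ≤ n j ∧ ‖z j - z i‖ < ε := by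
  have hc : IsCompact (closedBall (0 : K) R) := isCompact_closedBall _ _
  obtain ⟨a, -, φ, hφ, hlim⟩ := hc.tendsto_subseq (x := z) (fun j => by simpa using hz j)
  have hcau := hlim.cauchySeq
  rw [Metric.cauchySeq_iff'] at hcau
  obtain ⟨I, hI⟩ := hcau ε hε
  have h1 : ∀ᶠ i in atTop, n (φ I) + 2 ≤ n (φ i) :=
    (hn.comp hφ.tendsto_atTop).eventually_ge_atTop _
  have h2 : ∀ᶠ i in atTop, φ I + 2 ≤ φ i := hφ.tendsto_atTop.eventually_ge_atTop _
  obtain ⟨i, hi1, hi2, hi3⟩ := (h1.and (h2.and (eventually_ge_atTop I))).exists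
  refine ⟨φ I, φ i, hi2, hi1, ?_⟩
  have := hI i hi3
  rw [dist_eq_norm] at this
  exact this

theorem recur_one (s : K) (hs : ‖s‖ = 1) (ε : ℝ) (hε : 0 < ε) :
    ∃ N, 2 ≤ N ∧ ‖s ^ N - 1‖ < ε := by
  obtain ⟨i, j, hij, -, h⟩ := close_terms (fun j => s ^ j) 1
    (fun j => by rw [norm_pow, hs, one_pow]) id tendsto_id ε hε
  obtain ⟨k, rfl⟩ : ∃ k, j = i + k := ⟨j - i, by omega⟩
  refine ⟨k, by omega, ?_⟩
  have e : s ^ (i + k) - s ^ i = s ^ i * (s ^ k - 1) := by rw [pow_add]; ring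
  rw [e, norm_mul, norm_pow, hs, one_pow, one_mul] at h
  exact h

theorem recur_two (s b : K) (hs : 1 < ‖s‖) (hb : ‖b‖ < 1) (hb0 : b ≠ 0) (ε : ℝ) (hε : 0 < ε) :
    ∃ N M, 2 ≤ N ∧ 2 ≤ M ∧ ‖s ^ N * b ^ M - 1‖ < ε := by
  classical
  have hb0' : 0 < ‖b‖ := norm_pos_iff.mpr hb0
  have hs0 : 0 < ‖s‖ := by linarith
  have hex : ∀ j : ℕ, ∃ n : ℕ, 1 ≤ ‖s‖ ^ n * ‖b‖ ^ j := by
    intro j
    have hbj : 0 < ‖b‖ ^ j := by positivity
    obtain ⟨n, hn⟩ := pow_unbounded_of_one_lt (1 / ‖b‖ ^ j) hs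
    exact ⟨n, by rw [div_lt_iff₀ hbj] at hn; exact hn.le⟩
  set n : ℕ → ℕ := fun j => Nat.find (hex j) with hn
  have hn1 : ∀ j, 1 ≤ ‖s‖ ^ n j * ‖b‖ ^ j := fun j => Nat.find_spec (hex j)
  have hn2 : ∀ j, ‖s‖ ^ n j * ‖b‖ ^ j ≤ ‖s‖ := by
    intro j
    rcases Nat.eq_zero_or_pos (n j) with h | h
    · rw [h, pow_zero, one_mul]
      exact (pow_le_one₀ (norm_nonneg _) hb.le).trans hs.le
    · obtain ⟨k, hk⟩ : ∃ k, n j = k + 1 := ⟨n j - 1, by omega⟩
      have h1 := Nat.find_min (hex j) (m := k) (by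
        have : Nat.find (hex j) = k + 1 := hk
        omega)
      push Not at h1
      rw [hk, pow_succ]
      nlinarith
  have hntop : Tendsto n atTop atTop := by
    rw [Filter.tendsto_atTop]
    intro B
    have h1 : Tendsto (fun j : ℕ => ‖s‖ ^ B * ‖b‖ ^ j) atTop (𝓝 (‖s‖ ^ B * 0)) :=
      (tendsto_pow_atTop_nhds_zero_of_lt_one (norm_nonneg _) hb).const_mul _
    rw [mul_zero] at h1
    filter_upwards [h1.eventually (gt_mem_nhds one_pos)] with j hj
    by_contra hcon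
    push Not at hcon
    have h2 : ‖s‖ ^ n j * ‖b‖ ^ j ≤ ‖s‖ ^ B * ‖b‖ ^ j := by
      gcongr
      exact hs.le
    linarith [hn1 j]
  obtain ⟨i, j, hij, hnij, h⟩ := close_terms (fun j => s ^ n j * b ^ j) ‖s‖
    (fun j => by rw [norm_mul, norm_pow, norm_pow]; exact hn2 j) n hntop ε hε
  obtain ⟨M, rfl⟩ : ∃ M, j = i + M := ⟨j - i, by omega⟩
  obtain ⟨N, hN⟩ : ∃ N, n (i + M) = n i + N := ⟨n (i + M) - n i, by omega⟩
  refine ⟨N, M, by omega, by omega, ?_⟩
  have e : s ^ n (i + M) * b ^ (i + M) - s ^ n i * b ^ i =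
      (s ^ n i * b ^ i) * (s ^ N * b ^ M - 1) := by rw [hN, pow_add, pow_add]; ring
  rw [e, norm_mul, norm_mul, norm_pow, norm_pow] at h
  have h1 := hn1 i
  nlinarith [norm_nonneg (s ^ N * b ^ M - 1)]

/-- inverses in the closure -/
theorem inv_mem (T : Subsemigroup K) (h0 : ∀ s ∈ T, s ≠ 0) {a b : K} (ha : a ∈ T) (hb : b ∈ T)
    (ha1 : 1 < ‖a‖) (hb1 : ‖b‖ < 1) {s : K} (hs : s ∈ T) : s⁻¹ ∈ closure (T : Set K) := by
  have hpow : ∀ x ∈ T, ∀ n : ℕ, x ^ (n + 1) ∈ T := by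
    intro x hx n
    induction n with
    | zero => simpa using hx
    | succ n ih => rw [pow_succ]; exact T.mul_mem ih hx
  have hs0 := h0 s hs
  have hs0' : 0 < ‖s‖ := norm_pos_iff.mpr hs0
  rw [Metric.mem_closure_iff]
  intro ε hε
  have key : ∃ t ∈ T, ‖s * t - 1‖ < ε * ‖s‖ := by
    rcases lt_trichotomy ‖s‖ 1 with h | h | h
    · obtain ⟨N, M, hN, hM, h1⟩ := recur_two a s ha1 h hs0 (ε * ‖s‖) (by positivity)
      obtain ⟨N, rfl⟩ : ∃ k, N = k + 1 := ⟨N - 1, by omega⟩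
      obtain ⟨M, rfl⟩ : ∃ k, M = k + 1 + 1 := ⟨M - 2, by omega⟩
      refine ⟨a ^ (N + 1) * s ^ (M + 1), T.mul_mem (hpow a ha N) (hpow s hs M), ?_⟩
      have e : s * (a ^ (N + 1) * s ^ (M + 1)) = a ^ (N + 1) * s ^ (M + 1 + 1) := by ring
      rw [e]; exact h1
    · obtain ⟨N, hN, h1⟩ := recur_one s h (ε * ‖s‖) (by positivity)
      obtain ⟨N, rfl⟩ : ∃ k, N = k + 1 + 1 := ⟨N - 2, by omega⟩
      refine ⟨s ^ (N + 1), hpow s hs N, ?_⟩
      have e : s * s ^ (N + 1) = s ^ (N + 1 + 1) := by ring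
      rw [e]; exact h1
    · obtain ⟨N, M, hN, hM, h1⟩ := recur_two s b h hb1 (h0 b hb) (ε * ‖s‖) (by positivity)
      obtain ⟨N, rfl⟩ : ∃ k, N = k + 1 + 1 := ⟨N - 2, by omega⟩
      obtain ⟨M, rfl⟩ : ∃ k, M = k + 1 := ⟨M - 1, by omega⟩
      refine ⟨s ^ (N + 1) * b ^ (M + 1), T.mul_mem (hpow s hs N) (hpow b hb M), ?_⟩
      have e : s * (s ^ (N + 1) * b ^ (M + 1)) = s ^ (N + 1 + 1) * b ^ (M + 1) := by ring
      rw [e]; exact h1
  obtain ⟨t, ht, h1⟩ := key
  refine ⟨t, ht, ?_⟩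
  rw [dist_eq_norm]
  have e : s⁻¹ - t = - (s⁻¹ * (s * t - 1)) := by
    rw [mul_sub, ← mul_assoc, inv_mul_cancel₀ hs0]
    ring
  rw [e, norm_neg, norm_mul, norm_inv, inv_mul_lt_iff₀ hs0']
  linarith

/-- a subsemigroup of the nonzero scalars which is generated by elements of modulus at least one is
not coarsely dense along a ray -/
theorem exists_small {ι : Type} [Fintype ι] (χ : ι → ℝ) (hχ : ∀ i, 1 ≤ χ i) (N : Set ℝ)
    (hN : ∀ x ∈ N, ∃ n : ι → ℕ, x = ∏ i, χ i ^ n i) (D : ℝ) (hD : 0 < D)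
    (hd : ∀ r : ℝ, 0 < r → ∃ x ∈ N, |x - r| < D) : False := by
  classical
  -- a lower bound for the logarithms
  obtain ⟨m, hm, hm2⟩ : ∃ m : ℝ, 0 < m ∧ ∀ i, 1 < χ i → m ≤ Real.log (χ i) := by
    by_cases hne : (Finset.univ.filter fun i => 1 < χ i).Nonempty
    · refine ⟨(Finset.univ.filter fun i => 1 < χ i).inf' hne fun i => Real.log (χ i), ?_, ?_⟩
      · rw [Finset.lt_inf'_iff]
        intro i hi
        exact Real.log_pos (Finset.mem_filter.mp hi).2
      · intro i hi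
        exact Finset.inf'_le _ (Finset.mem_filter.mpr ⟨Finset.mem_univ i, hi⟩)
    · refine ⟨1, one_pos, fun i hi => ?_⟩
      exact absurd ⟨i, Finset.mem_filter.mpr ⟨Finset.mem_univ i, hi⟩⟩ hne
  -- the exponents can be bounded
  have hexp : ∀ x ∈ N, ∀ R : ℝ, 1 ≤ R → x ≤ R → ∃ n : ι → ℕ, (∀ i, (n i : ℝ) ≤ Real.log R / m) ∧
      x = ∏ i, χ i ^ n i := by
    intro x hx R hR hxR
    obtain ⟨n, hn⟩ := hN x hx
    have hlogR : 0 ≤ Real.log R := Real.log_nonneg hR
    refine ⟨fun i => if 1 < χ i then n i else 0, fun i => ?_, ?_⟩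
    · beta_reduce
      split_ifs with h
      · rw [le_div_iff₀ hm]
        have h1 : χ i ^ n i ≤ R := by
          refine le_trans ?_ hxR
          rw [hn]
          have h2 : ∀ j, 1 ≤ χ j ^ n j := fun j => one_le_pow₀ (hχ j)
          have h3 : 1 ≤ ∏ j ∈ Finset.univ.erase i, χ j ^ n j := by
            exact Finset.prod_induction (fun j => χ j ^ n j) (fun y => 1 ≤ y)
              (fun a b ha hb => one_le_mul_of_one_le_of_one_le ha hb) le_rfl (fun j _ => h2 j)
          have h4 : χ i ^ n i * ∏ j ∈ Finset.univ.erase i, χ j ^ n j = ∏ j, χ j ^ n j :=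
            Finset.mul_prod_erase Finset.univ (fun j => χ j ^ n j) (Finset.mem_univ i)
          rw [← h4]
          have h5 := h2 i
          nlinarith
        have h2 := Real.log_le_log (by have := one_le_pow₀ (hχ i) (n := n i); linarith) h1
        rw [Real.log_pow] at h2
        have h3 := hm2 i h
        have h4 : (0 : ℝ) ≤ n i := Nat.cast_nonneg _
        nlinarith
      · push_cast
        positivity
    · rw [hn]
      apply Finset.prod_congr rfl
      intro i _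
      beta_reduce
      split_ifs with h
      · rfl
      · have : χ i = 1 := le_antisymm (not_lt.mp h) (hχ i)
        rw [this]; simp
  -- the count
  have hcount : ∀ J : ℕ, 1 ≤ ((2 : ℝ) * J + 1) * D →
      (J : ℝ) ≤ (Real.log ((2 * J + 1) * D) / m + 1) ^ Fintype.card ι := by
    intro J hJ
    set R : ℝ := (2 * J + 1) * D with hR
    have hlogR : 0 ≤ Real.log R := Real.log_nonneg hJ
    set L : ℕ := ⌊Real.log R / m⌋₊ with hL
    have hr : ∀ j : ℕ, 0 < (2 * (j : ℝ) + 2) * D := fun j => by positivity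
    choose x hx hx2 using fun j : ℕ => hd _ (hr j)
    have hxR : ∀ j : Fin J, x j ≤ R := by
      intro j
      have h1 := (abs_lt.mp (hx2 j)).2
      have h2 : ((j : ℕ) : ℝ) + 1 ≤ J := by exact_mod_cast j.2
      have h3 : (2 * ((j : ℕ) : ℝ) + 2) * D ≤ 2 * J * D := by
        have : 2 * ((j : ℕ) : ℝ) + 2 ≤ 2 * J := by linarith
        exact mul_le_mul_of_nonneg_right this hD.le
      rw [hR]; linarith
    choose n hn hn2 using fun j : Fin J => hexp (x j) (hx j) R hJ (hxR j)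
    have hinj : Function.Injective fun j : Fin J => (fun i => (⟨n j i, by
        rw [Nat.lt_succ_iff, hL]
        exact Nat.le_floor (hn j i)⟩ : Fin (L + 1))) := by
      intro j j' hjj
      have h1 : n j = n j' := by
        funext i
        have := congrFun hjj i
        simpa using this
      have h2 : x j = x j' := by rw [hn2, hn2, h1]
      have h3 := hx2 j
      have h4 := hx2 j'
      rw [h2] at h3
      have h5 : |(2 * ((j : ℕ) : ℝ) + 2) * D - (2 * ((j' : ℕ) : ℝ) + 2) * D| < 2 * D := by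
        rw [abs_lt] at h3 h4 ⊢
        constructor <;> linarith [h3.1, h3.2, h4.1, h4.2]
      have h6 : |((j : ℕ) : ℝ) - ((j' : ℕ) : ℝ)| < 1 := by
        have e : (2 * ((j : ℕ) : ℝ) + 2) * D - (2 * ((j' : ℕ) : ℝ) + 2) * D =
            (2 * D) * (((j : ℕ) : ℝ) - ((j' : ℕ) : ℝ)) := by ring
        rw [e, abs_mul, abs_of_pos (by positivity)] at h5
        have : 0 < 2 * D := by positivity
        nlinarith
      have h7 : |((j : ℕ) : ℤ) - ((j' : ℕ) : ℤ)| < 1 := by exact_mod_cast h6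
      have h8 : ((j : ℕ) : ℤ) = ((j' : ℕ) : ℤ) := by
        rw [Int.abs_lt_one_iff] at h7
        omega
      exact Fin.ext (by exact_mod_cast h8)
    have hcard := Fintype.card_le_of_injective _ hinj
    rw [Fintype.card_fin, Fintype.card_fun, Fintype.card_fin] at hcard
    have h1 : (J : ℝ) ≤ ((L : ℝ) + 1) ^ Fintype.card ι := by exact_mod_cast hcard
    refine h1.trans ?_
    gcongr
    rw [hL]
    exact Nat.floor_le (by positivity)
  -- the growth
  set k := Fintype.card ι with hk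
  set C : ℝ := 1 / m + 1 with hC
  have hC0 : 0 < C := by positivity
  have hlo := (Real.isLittleO_pow_log_id_atTop (n := k)).bound (c := 1 / (4 * D * C ^ k)) (by positivity)
  have hlim : Tendsto (fun J : ℕ => ((2 : ℝ) * J + 1) * D) atTop atTop := by
    apply Tendsto.atTop_mul_const hD
    apply tendsto_atTop_add_const_right
    exact (tendsto_natCast_atTop_atTop).const_mul_atTop (by norm_num)
  have hev := (hlim.eventually hlo).and ((hlim.eventually_ge_atTop (Real.exp 1)).and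
    (hlim.eventually_gt_atTop (2 * D)))
  obtain ⟨J, hJ1, hJ2, hJ3⟩ := hev.exists
  set X : ℝ := ((2 : ℝ) * J + 1) * D with hX
  have hX1 : 1 ≤ X := le_trans (Real.one_le_exp (by norm_num : (0:ℝ) ≤ 1)) hJ2
  have hX0 : 0 < X := by linarith
  have hlogX : 1 ≤ Real.log X := by
    rw [Real.le_log_iff_exp_le hX0]; exact hJ2
  have h1 := hcount J hX1
  have h2 : Real.log X / m + 1 ≤ C * Real.log X := by
    rw [hC, add_mul, one_mul, one_div, inv_mul_eq_div]
    linarith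
  have h3 : (J : ℝ) ≤ C ^ k * Real.log X ^ k := by
    refine h1.trans ?_
    rw [← mul_pow]
    gcongr
  rw [Real.norm_eq_abs, abs_of_nonneg (by positivity), Real.norm_eq_abs, id, abs_of_pos hX0] at hJ1
  have h4 : C ^ k * Real.log X ^ k ≤ X / (4 * D) := by
    calc C ^ k * Real.log X ^ k ≤ C ^ k * (1 / (4 * D * C ^ k) * X) := by gcongr
      _ = X / (4 * D) := by field_simp
  have h5 : (J : ℝ) * (4 * D) ≤ X := by
    have := h3.trans h4
    rwa [le_div_iff₀ (by positivity)] at this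
  have h6 : X = 2 * J * D + D := by rw [hX]; ring
  nlinarith

end Scalars

end Pool.Agent.Q186.Rays
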