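import Mathlib
import Pool.Agent.Q186.Rays.Pos

/-!
# Two rays force somewhere dense orbits in dimension one: conclusion
-/

set_option autoImplicit false

open Metric Set Topology Filter

namespace Pool.Agent.Q186.Rays

variable {K V : Type} [RCLike K] [NormedAddCommGroup V] [NormedSpace K V]

theorem pos (h1 : Module.finrank K V = 1) (u0 : K) (hu1 : ‖u0‖ = 1)
    (hu : ∀ (z : K) (ε : ℝ), 0 < ε → ∃ (t : ℝ) (n : ℤ), 0 < t ∧ ‖(t : K) * u0 ^ n - z‖ < ε) :
    ∃ W : Finset V, Forces K W := by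
  classical
  have hu00 : u0 ≠ 0 := by
    intro h
    rw [h, norm_zero] at hu1
    exact zero_ne_one hu1
  have hnt : Nontrivial V := Module.nontrivial_of_finrank_pos (R := K) (by omega)
  obtain ⟨e, he⟩ := exists_ne (0 : V)
  refine ⟨{e, u0 • e}, ?_, ?_⟩
  · intro w hw
    rw [Finset.mem_insert, Finset.mem_singleton] at hw
    rcases hw with rfl | rfl
    · exact he
    · exact smul_ne_zero hu00 he
  rintro S ⟨G, hGfin, -, hS⟩ ⟨v, D, hD, hcov⟩
  refine ⟨v, ?_⟩
  -- approximation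
  have happ : ∀ w : V, (w = e ∨ w = u0 • e) → ∀ r : ℝ, 0 < r → ∃ g ∈ S, ‖g v - (r : K) • w‖ < D := by
    intro w hw r hr
    have h2 : (r : K) • w ∈ ⋃ w ∈ ({e, u0 • e} : Finset V), ray K w := by
      simp only [Set.mem_iUnion, exists_prop]
      exact ⟨w, by rw [Finset.mem_insert, Finset.mem_singleton]; exact hw, r, hr, rfl⟩
    have h3 := hcov h2
    simp only [Set.mem_iUnion, exists_prop] at h3
    obtain ⟨a, ⟨g, hg, rfl⟩, h4⟩ := h3
    rw [mem_ball, dist_comm, dist_eq_norm] at h4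
    exact ⟨g, hg, h4⟩
  have hv : v ≠ 0 := by
    rintro rfl
    have he0 : 0 < ‖e‖ := norm_pos_iff.mpr he
    obtain ⟨g, -, hg⟩ := happ e (Or.inl rfl) (D / ‖e‖) (by positivity)
    rw [map_zero, zero_sub, norm_neg, norm_smul, RCLike.norm_ofReal, abs_of_pos (by positivity),
      div_mul_cancel₀ _ he0.ne'] at hg
    exact lt_irrefl _ hg
  have hv0 : 0 < ‖v‖ := norm_pos_iff.mpr hv
  have hspan : ∀ x : V, ∃ c : K, c • v = x := (finrank_eq_one_iff_of_nonzero' v hv).mp h1
  choose co hco using hspan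
  have hinj : ∀ a b : K, a • v = b • v → a = b := by
    intro a b hab
    have : (a - b) • v = 0 := by rw [sub_smul, hab, sub_self]
    rcases smul_eq_zero.mp this with h | h
    · exact sub_eq_zero.mp h
    · exact absurd h hv
  -- the character
  have hchi : ∀ (g : V ≃ₗ[K] V) (x : V), g x = co (g v) • x := by
    intro g x
    calc g x = g (co x • v) := by rw [hco]
      _ = co x • g v := map_smul _ _ _
      _ = co x • (co (g v) • v) := by rw [hco (g v)]
      _ = co (g v) • (co x • v) := smul_comm _ _ _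
      _ = co (g v) • x := by rw [hco x]
  have hmul : ∀ g h : V ≃ₗ[K] V, co ((g * h) v) = co (g v) * co (h v) := by
    intro g h
    apply hinj
    rw [hco, mul_smul, hco]
    exact hchi g (h v)
  have hne : ∀ g : V ≃ₗ[K] V, co (g v) ≠ 0 := by
    intro g h0
    have h2 := hchi g v
    rw [h0, zero_smul] at h2
    exact hv ((LinearEquiv.map_eq_zero_iff g).mp h2)
  -- the semigroup of scalars
  let T : Subsemigroup K :=
    { carrier := {c | ∃ g ∈ S, co (g v) = c}
      mul_mem' := by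
        rintro a b ⟨g, hg, rfl⟩ ⟨h, hh, rfl⟩
        exact ⟨g * h, S.mul_mem hg hh, hmul g h⟩ }
  have hT0 : ∀ s ∈ T, s ≠ 0 := by
    rintro s ⟨g, -, rfl⟩
    exact hne g
  set κ : K := co e with hκ
  have hκ0 : κ ≠ 0 := by
    intro h0
    apply he
    rw [← hco e, ← hκ, h0, zero_smul]
  have hκ0' : 0 < ‖κ‖ := norm_pos_iff.mpr hκ0
  set D' : ℝ := D / ‖v‖ with hD'
  have hD'0 : 0 < D' := by positivity
  -- approximation by scalars
  have happ1 : ∀ r : ℝ, 0 < r → ∃ c ∈ T, ‖c - (r : K) * κ‖ < D' := by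
    intro r hr
    obtain ⟨g, hg, h2⟩ := happ e (Or.inl rfl) r hr
    refine ⟨co (g v), ⟨g, hg, rfl⟩, ?_⟩
    have e1 : g v - (r : K) • e = (co (g v) - (r : K) * κ) • v := by
      rw [sub_smul, hco, mul_smul, hκ, hco]
    rw [e1, norm_smul] at h2
    rw [hD', lt_div_iff₀ hv0]
    exact h2
  have happ2 : ∀ r : ℝ, 0 < r → ∃ c ∈ T, ‖c - (r : K) * (u0 * κ)‖ < D' := by
    intro r hr
    obtain ⟨g, hg, h2⟩ := happ (u0 • e) (Or.inr rfl) r hr
    refine ⟨co (g v), ⟨g, hg, rfl⟩, ?_⟩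
    have e1 : g v - (r : K) • (u0 • e) = (co (g v) - (r : K) * (u0 * κ)) • v := by
      rw [sub_smul, hco, mul_smul, mul_smul, hκ, hco]
    rw [e1, norm_smul] at h2
    rw [hD', lt_div_iff₀ hv0]
    exact h2
  -- large elements
  have hnormr : ∀ (r : ℝ) (c a : K), 0 < r → ‖c - (r : K) * a‖ < D' → r * ‖a‖ - D' ≤ ‖c‖ := by
    intro r c a hr h2
    have h3 : ‖(r : K) * a‖ = r * ‖a‖ := by
      rw [norm_mul, RCLike.norm_ofReal, abs_of_pos hr]
    have h4 : ‖(r : K) * a‖ ≤ ‖c‖ + ‖c - (r : K) * a‖ := by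
      have : (r : K) * a = c - (c - (r : K) * a) := by ring
      rw [this]
      refine (norm_sub_le _ _).trans ?_
      rw [← this]
    linarith
  obtain ⟨a, haT, ha1⟩ : ∃ a ∈ T, 1 < ‖a‖ := by
    obtain ⟨c, hc, h2⟩ := happ1 ((D' + 2) / ‖κ‖) (by positivity)
    refine ⟨c, hc, ?_⟩
    have h3 := hnormr _ c κ (by positivity) h2
    rw [div_mul_cancel₀ _ hκ0'.ne'] at h3
    linarith
  -- small elements
  obtain ⟨b, hbT, hb1⟩ : ∃ b ∈ T, ‖b‖ < 1 := by
    by_contra hcon
    push Not at hcon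
    have : Fintype G := hGfin.fintype
    have hform : ∀ g ∈ S, ∃ n : G → ℕ, ‖co (g v)‖ = ∏ h : G, ‖co (h.1 v)‖ ^ n h := by
      intro g hg
      rw [hS] at hg
      induction hg using Subsemigroup.closure_induction with
      | mem g hg =>
        refine ⟨Pi.single ⟨g, hg⟩ 1, ?_⟩
        rw [Finset.prod_eq_single (⟨g, hg⟩ : G)]
        · simp
        · intro h _ hne'
          simp [hne']
        · simp
      | mul g h _ _ ihg ihh =>
        obtain ⟨n, hn⟩ := ihg
        obtain ⟨n', hn'⟩ := ihh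
        refine ⟨n + n', ?_⟩
        rw [hmul, norm_mul, hn, hn', ← Finset.prod_mul_distrib]
        apply Finset.prod_congr rfl
        intro x _
        rw [Pi.add_apply, pow_add]
    refine exists_small (fun h : G => ‖co (h.1 v)‖) (fun h => hcon _ ⟨h.1, ?_, rfl⟩)
      {x | ∃ c ∈ T, x = ‖c‖} ?_ D' hD'0 ?_
    · rw [hS]
      exact Subsemigroup.subset_closure h.2
    · rintro x ⟨c, ⟨g, hg, rfl⟩, rfl⟩
      exact hform g hg
    · intro r hr
      obtain ⟨c, hc, h2⟩ := happ1 (r / ‖κ‖) (by positivity)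
      refine ⟨‖c‖, ⟨c, hc, rfl⟩, ?_⟩
      have h3 : ‖((r / ‖κ‖ : ℝ) : K) * κ‖ = r := by
        rw [norm_mul, RCLike.norm_ofReal, abs_of_pos (by positivity), div_mul_cancel₀ _ hκ0'.ne']
      calc |‖c‖ - r| = |‖c‖ - ‖((r / ‖κ‖ : ℝ) : K) * κ‖| := by rw [h3]
        _ ≤ ‖c - ((r / ‖κ‖ : ℝ) : K) * κ‖ := abs_norm_sub_norm_le _ _
        _ < D' := h2
  -- the closure
  have hcl : ∀ x y : K, x ∈ closure (T : Set K) → y ∈ closure (T : Set K) →
      x * y ∈ closure (T : Set K) := by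
    intro x y hx hy
    have hx' : x ∈ T.topologicalClosure := hx
    have hy' : y ∈ T.topologicalClosure := hy
    exact T.topologicalClosure.mul_mem hx' hy'
  have hinv : ∀ s ∈ T, s⁻¹ ∈ closure (T : Set K) := fun s hs =>
    inv_mem T hT0 haT hbT ha1 hb1 hs
  have hratio : ∀ (α : K) (B : ℝ), (∀ r : ℝ, ∃ x ∈ T, ∃ y ∈ T, ‖x - α * y‖ ≤ B ∧ r ≤ ‖y‖) →
      α ∈ closure (T : Set K) := by
    intro α B h
    rw [← closure_closure, Metric.mem_closure_iff]
    intro ε hε
    obtain ⟨x, hx, y, hy, h2, h3⟩ := h ((|B| + 1) / ε)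
    refine ⟨x * y⁻¹, hcl _ _ (subset_closure hx) (hinv y hy), ?_⟩
    have hy0 := hT0 y hy
    have hy0' : 0 < ‖y‖ := norm_pos_iff.mpr hy0
    have e1 : α - x * y⁻¹ = - ((x - α * y) * y⁻¹) := by
      field_simp
      ring
    rw [dist_eq_norm, e1, norm_neg, norm_mul, norm_inv, mul_inv_lt_iff₀ hy0']
    rw [div_le_iff₀ hε] at h3
    have h4 := le_abs_self B
    linarith
  have hreal : ∀ t : ℝ, 0 < t → (t : K) ∈ closure (T : Set K) := by
    intro t ht
    apply hratio _ (D' + t * D')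
    intro r
    set r1 : ℝ := (|r| + D' + 1) / ‖κ‖ with hr1
    have hr1p : 0 < r1 := by positivity
    obtain ⟨y, hy, hy2⟩ := happ1 r1 hr1p
    obtain ⟨x, hx, hx2⟩ := happ1 (t * r1) (by positivity)
    refine ⟨x, hx, y, hy, ?_, ?_⟩
    · have e1 : x - (t : K) * y = (x - ((t * r1 : ℝ) : K) * κ) - (t : K) * (y - (r1 : K) * κ) := by
        rw [RCLike.ofReal_mul]
        ring
      rw [e1]
      refine (norm_sub_le _ _).trans ?_
      rw [norm_mul, RCLike.norm_ofReal, abs_of_pos ht]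
      have : t * ‖y - (r1 : K) * κ‖ ≤ t * D' := mul_le_mul_of_nonneg_left hy2.le ht.le
      linarith
    · have h3 := hnormr r1 y κ hr1p hy2
      rw [hr1, div_mul_cancel₀ _ hκ0'.ne'] at h3
      have := le_abs_self r
      linarith
  have hu0m : u0 ∈ closure (T : Set K) := by
    apply hratio _ (D' + D')
    intro r
    set r1 : ℝ := (|r| + D' + 1) / ‖κ‖ with hr1
    have hr1p : 0 < r1 := by positivity
    obtain ⟨y, hy, hy2⟩ := happ1 r1 hr1p
    obtain ⟨x, hx, hx2⟩ := happ2 r1 hr1p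
    refine ⟨x, hx, y, hy, ?_, ?_⟩
    · have e1 : x - u0 * y = (x - (r1 : K) * (u0 * κ)) - u0 * (y - (r1 : K) * κ) := by ring
      rw [e1]
      refine (norm_sub_le _ _).trans ?_
      rw [norm_mul, hu1, one_mul]
      linarith
    · have h3 := hnormr r1 y κ hr1p hy2
      rw [hr1, div_mul_cancel₀ _ hκ0'.ne'] at h3
      have := le_abs_self r
      linarith
  have hu0inv : u0⁻¹ ∈ closure (T : Set K) := by
    apply hratio _ (D' + D')
    intro r
    set r1 : ℝ := (|r| + D' + 1) / ‖κ‖ with hr1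
    have hr1p : 0 < r1 := by positivity
    obtain ⟨x, hx, hx2⟩ := happ1 r1 hr1p
    obtain ⟨y, hy, hy2⟩ := happ2 r1 hr1p
    refine ⟨x, hx, y, hy, ?_, ?_⟩
    · have e1 : x - u0⁻¹ * y = (x - (r1 : K) * κ) - u0⁻¹ * (y - (r1 : K) * (u0 * κ)) := by
        field_simp
        ring
      rw [e1]
      refine (norm_sub_le _ _).trans ?_
      rw [norm_mul, norm_inv, hu1, inv_one, one_mul]
      linarith
    · have h3 := hnormr r1 y (u0 * κ) hr1p hy2
      rw [norm_mul, hu1, one_mul, hr1, div_mul_cancel₀ _ hκ0'.ne'] at h3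
      have := le_abs_self r
      linarith
  have hone : (1 : K) ∈ closure (T : Set K) := by
    have := hreal 1 one_pos
    simpa using this
  have hnat : ∀ x ∈ closure (T : Set K), ∀ n : ℕ, x ^ n ∈ closure (T : Set K) := by
    intro x hx n
    induction n with
    | zero => rw [pow_zero]; exact hone
    | succ n ih => rw [pow_succ]; exact hcl _ _ ih hx
  have hzp : ∀ n : ℤ, u0 ^ n ∈ closure (T : Set K) := by
    intro n
    cases n with
    | ofNat n =>
      rw [Int.ofNat_eq_natCast, zpow_natCast]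
      exact hnat _ hu0m n
    | negSucc n =>
      rw [zpow_negSucc, ← inv_pow]
      exact hnat _ hu0inv _
  have hdense : ∀ z : K, z ∈ closure (T : Set K) := by
    intro z
    rw [← closure_closure, Metric.mem_closure_iff]
    intro ε hε
    obtain ⟨t, n, ht, h2⟩ := hu z ε hε
    refine ⟨(t : K) * u0 ^ n, hcl _ _ (hreal t ht) (hzp n), ?_⟩
    rw [dist_comm, dist_eq_norm]
    exact h2
  have horb : closure (orbit S v) = univ := by
    rw [Set.eq_univ_iff_forall]
    intro x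
    rw [Metric.mem_closure_iff]
    intro ε hε
    obtain ⟨c, ⟨g, hg, rfl⟩, h2⟩ := Metric.mem_closure_iff.mp (hdense (co x)) (ε / ‖v‖) (by positivity)
    refine ⟨g v, ⟨g, hg, rfl⟩, ?_⟩
    have e1 : x - g v = (co x - co (g v)) • v := by
      rw [sub_smul, hco, hco]
    rw [dist_eq_norm] at h2
    rw [dist_eq_norm, e1, norm_smul]
    rwa [lt_div_iff₀ hv0] at h2
  unfold SomewhereDense
  rw [horb, interior_univ]
  exact ⟨0, trivial⟩

end Pool.Agent.Q186.Rays
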