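import Mathlib

/-!
# Finitely generated dense semigroups of scalars
-/

set_option autoImplicit false

open Metric Set Topology

namespace Pool.Agent.Q186.Rays

theorem irr_log : Irrational (Real.log 2 / Real.log 3) := by
  rintro ⟨q, hq⟩
  have h2 : 0 < Real.log 2 := Real.log_pos (by norm_num)
  have h3 : 0 < Real.log 3 := Real.log_pos (by norm_num)
  have hq0 : 0 < (q : ℝ) := by rw [hq]; positivity
  have hq0' : 0 < q := by exact_mod_cast hq0
  -- `2 ^ den = 3 ^ num`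
  have hnum : ((q.num.toNat : ℕ) : ℝ) = (q.num : ℝ) := by
    have h := Rat.num_pos.mpr hq0'
    have : ((q.num.toNat : ℕ) : ℤ) = q.num := Int.toNat_of_nonneg h.le
    exact_mod_cast this
  have hden : (q.den : ℝ) * Real.log 2 = q.num.toNat * Real.log 3 := by
    have h4 : (q : ℝ) = q.num / q.den := by
      rw [Rat.cast_def]
    have h5 : (q.den : ℝ) ≠ 0 := by exact_mod_cast q.den_nz
    rw [h4] at hq
    rw [hnum]
    field_simp at hq
    linarith
  have h6 : Real.log ((2 : ℝ) ^ q.den) = Real.log ((3 : ℝ) ^ q.num.toNat) := by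
    rw [Real.log_pow, Real.log_pow]; exact hden
  have h7 : (2 : ℝ) ^ q.den = (3 : ℝ) ^ q.num.toNat :=
    Real.log_injOn_pos (by simp) (by simp) h6
  have h8 : (2 : ℕ) ^ q.den = 3 ^ q.num.toNat := by exact_mod_cast h7
  have h9 : (2 : ℕ) ∣ 3 ^ q.num.toNat := by
    rw [← h8]
    exact dvd_pow_self 2 q.den_nz
  have h10 := (Nat.Prime.dvd_of_dvd_pow Nat.prime_two h9)
  omega

/-- products `2 ^ p 3 ^ q` are dense in the positive reals -/
theorem dense_pos (x : ℝ) (hx : 0 < x) (ε : ℝ) (hε : 0 < ε) :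
    ∃ p q : ℤ, |(2 : ℝ) ^ p * (3 : ℝ) ^ q - x| < ε := by
  have h := dense_addSubgroupClosure_pair_iff.mpr irr_log
  -- continuity of the exponential at `log x`
  have hc := Real.continuous_exp.continuousAt (x := Real.log x)
  rw [Metric.continuousAt_iff] at hc
  obtain ⟨δ, hδ, hδ2⟩ := hc ε hε
  obtain ⟨t, ht, ht2⟩ := Metric.dense_iff.mp h (Real.log x) δ hδ
  rw [SetLike.mem_coe, AddSubgroup.mem_closure_pair] at ht2
  obtain ⟨p, q, hpq⟩ := ht2
  refine ⟨p, q, ?_⟩
  have h1 := hδ2 ht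
  rw [Real.dist_eq, Real.exp_log hx, ← hpq, Real.exp_add] at h1
  have e1 : Real.exp (p • Real.log 2) = (2 : ℝ) ^ p := by
    rw [zsmul_eq_mul, mul_comm, Real.exp_mul, Real.exp_log (by norm_num), Real.rpow_intCast]
  have e2 : Real.exp (q • Real.log 3) = (3 : ℝ) ^ q := by
    rw [zsmul_eq_mul, mul_comm, Real.exp_mul, Real.exp_log (by norm_num), Real.rpow_intCast]
  rwa [e1, e2] at h1

theorem zpow_mem_closure {K : Type} [Field K] {s : Set K} {a : K} (h1 : a ∈ s) (h2 : a⁻¹ ∈ s) (n : ℤ) :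
    a ^ n ∈ Submonoid.closure s := by
  cases n with
  | ofNat n =>
    rw [Int.ofNat_eq_natCast, zpow_natCast]
    exact pow_mem (Submonoid.subset_closure h1) n
  | negSucc n =>
    rw [zpow_negSucc, ← inv_pow]
    exact pow_mem (Submonoid.subset_closure h2) _

theorem dense_real : ∃ G0 : Finset ℝ, (∀ g ∈ G0, g ≠ 0) ∧
    Dense (Submonoid.closure (G0 : Set ℝ) : Set ℝ) := by
  refine ⟨{2, 2⁻¹, 3, 3⁻¹, -1}, ?_, ?_⟩
  · intro g hg
    simp only [Finset.mem_insert, Finset.mem_singleton] at hg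
    rcases hg with rfl | rfl | rfl | rfl | rfl <;> norm_num
  · set T := Submonoid.closure ((({2, 2⁻¹, 3, 3⁻¹, -1} : Finset ℝ)) : Set ℝ) with hT
    have hneg : (-1 : ℝ) ∈ T := Submonoid.subset_closure (by simp)
    have hpos : ∀ p q : ℤ, (2 : ℝ) ^ p * (3 : ℝ) ^ q ∈ T := fun p q =>
      T.mul_mem (zpow_mem_closure (by simp) (by simp) p) (zpow_mem_closure (by simp) (by simp) q)
    rw [Metric.dense_iff]
    intro x ε hε
    rcases lt_trichotomy x 0 with hx | hx | hx
    · obtain ⟨p, q, h⟩ := dense_pos (-x) (by linarith) ε hε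
      refine ⟨(-1) * ((2 : ℝ) ^ p * (3 : ℝ) ^ q), ?_, T.mul_mem hneg (hpos p q)⟩
      rw [mem_ball, Real.dist_eq, ← abs_neg]
      convert h using 2
      ring
    · obtain ⟨p, q, h⟩ := dense_pos (ε / 2) (by linarith) (ε / 2) (by linarith)
      refine ⟨(2 : ℝ) ^ p * (3 : ℝ) ^ q, ?_, hpos p q⟩
      rw [mem_ball, Real.dist_eq, hx]
      rw [abs_lt] at h ⊢
      constructor <;> linarith
    · obtain ⟨p, q, h⟩ := dense_pos x hx ε hε
      refine ⟨(2 : ℝ) ^ p * (3 : ℝ) ^ q, ?_, hpos p q⟩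
      rw [mem_ball, Real.dist_eq]
      exact h

/-- the rotation by one radian -/
noncomputable def rot1 : ℂ := Complex.exp Complex.I

theorem rot1_ne : rot1 ≠ 0 := Complex.exp_ne_zero _

theorem rot1_norm : ‖rot1‖ = 1 := by
  have := Complex.norm_exp_ofReal_mul_I 1
  simpa [rot1] using this

/-- the powers of the rotation are dense in the circle -/
theorem dense_circle (θ : ℝ) (ε : ℝ) (hε : 0 < ε) :
    ∃ n : ℤ, ‖rot1 ^ n - Complex.exp (θ * Complex.I)‖ < ε := by
  have hirr : Irrational (1 / (2 * Real.pi)) := by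
    rw [one_div, irrational_inv_iff]
    have := irrational_pi.natCast_mul (m := 2) (by norm_num)
    exact_mod_cast this
  have h := dense_addSubgroupClosure_pair_iff.mpr hirr
  obtain ⟨t, ht, ht2⟩ := Metric.dense_iff.mp h θ ε hε
  rw [SetLike.mem_coe, AddSubgroup.mem_closure_pair] at ht2
  obtain ⟨n, k, hnk⟩ := ht2
  refine ⟨n, ?_⟩
  have e1 : rot1 ^ n = Complex.exp ((t : ℝ) * Complex.I) := by
    rw [rot1, ← Complex.exp_int_mul, ← hnk]
    have : (((n • (1 : ℝ) + k • (2 * Real.pi) : ℝ)) : ℂ) * Complex.I =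
        n * Complex.I + k * (2 * Real.pi * Complex.I) := by
      push_cast
      simp
      ring
    rw [this, Complex.exp_add, Complex.exp_int_mul (2 * Real.pi * Complex.I), Complex.exp_two_pi_mul_I,
      one_zpow, mul_one]
  rw [e1]
  have e2 : Complex.exp ((t : ℝ) * Complex.I) - Complex.exp (θ * Complex.I) =
      Complex.exp (θ * Complex.I) * (Complex.exp (Complex.I * ((t - θ : ℝ) : ℂ)) - 1) := by
    rw [mul_sub, ← Complex.exp_add, mul_one]
    congr 2
    push_cast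
    ring
  rw [e2, norm_mul, Complex.norm_exp_ofReal_mul_I, one_mul]
  refine lt_of_le_of_lt Real.norm_exp_I_mul_ofReal_sub_one_le ?_
  rw [mem_ball, Real.dist_eq] at ht
  rwa [Real.norm_eq_abs]

/-- real multiples of powers of the rotation are dense -/
theorem dense_rays (z : ℂ) (ε : ℝ) (hε : 0 < ε) :
    ∃ (t : ℝ) (n : ℤ), 0 < t ∧ ‖(t : ℂ) * rot1 ^ n - z‖ < ε := by
  by_cases hz : z = 0
  · refine ⟨ε / 2, 0, by linarith, ?_⟩
    rw [hz, zpow_zero, mul_one, sub_zero, Complex.norm_real, Real.norm_eq_abs, abs_of_pos (by linarith)]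
    linarith
  · have hz0 : 0 < ‖z‖ := norm_pos_iff.mpr hz
    obtain ⟨n, hn⟩ := dense_circle z.arg (ε / ‖z‖) (by positivity)
    refine ⟨‖z‖, n, hz0, ?_⟩
    have e : z = (‖z‖ : ℂ) * Complex.exp (z.arg * Complex.I) := (Complex.norm_mul_exp_arg_mul_I z).symm
    have e2 : ((‖z‖ : ℝ) : ℂ) * rot1 ^ n - z =
        (‖z‖ : ℂ) * (rot1 ^ n - Complex.exp (z.arg * Complex.I)) := by
      rw [mul_sub, ← e]
    rw [e2, norm_mul, Complex.norm_real, norm_norm]
    rw [lt_div_iff₀ hz0] at hn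
    linarith

theorem dense_complex : ∃ G0 : Finset ℂ, (∀ g ∈ G0, g ≠ 0) ∧
    Dense (Submonoid.closure (G0 : Set ℂ) : Set ℂ) := by
  classical
  refine ⟨{2, 2⁻¹, 3, 3⁻¹, rot1, rot1⁻¹}, ?_, ?_⟩
  · intro g hg
    simp only [Finset.mem_insert, Finset.mem_singleton] at hg
    rcases hg with rfl | rfl | rfl | rfl | rfl | rfl
    · norm_num
    · norm_num
    · norm_num
    · norm_num
    · exact rot1_ne
    · exact inv_ne_zero rot1_ne
  · set T := Submonoid.closure ((({2, 2⁻¹, 3, 3⁻¹, rot1, rot1⁻¹} : Finset ℂ)) : Set ℂ) with hT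
    rw [Metric.dense_iff]
    intro x ε hε
    obtain ⟨t, n, ht, hn⟩ := dense_rays x (ε / 2) (by linarith)
    obtain ⟨p, q, h⟩ := dense_pos t ht (ε / 2) (by linarith)
    refine ⟨((2 : ℂ) ^ p * (3 : ℂ) ^ q) * rot1 ^ n, ?_, T.mul_mem (T.mul_mem
      (zpow_mem_closure (by simp) (by simp) p) (zpow_mem_closure (by simp) (by simp) q))
      (zpow_mem_closure (by simp) (by simp) n)⟩
    rw [mem_ball, dist_eq_norm]
    have e1 : ((2 : ℂ) ^ p * (3 : ℂ) ^ q) * rot1 ^ n - x =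
        ((((2 : ℝ) ^ p * (3 : ℝ) ^ q - t : ℝ)) : ℂ) * rot1 ^ n + ((t : ℂ) * rot1 ^ n - x) := by
      push_cast
      ring
    rw [e1]
    refine lt_of_le_of_lt (norm_add_le _ _) ?_
    rw [norm_mul, Complex.norm_real, Real.norm_eq_abs, norm_zpow, rot1_norm, one_zpow, mul_one]
    linarith

end Pool.Agent.Q186.Rays
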